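import Pool.Agent.CRT.Stmts

set_option autoImplicit false

/-!
# CRT, row NBH: near curves have near shapes
-/

namespace Pool.Agent.CRT.H76

open Set Filter Topology MeasureTheory

theorem coord (m T N l l' β β' : ℝ) (a a' : ℤ) (hm : 1 ≤ m) (hT : 1 ≤ T) (hN : 0 ≤ N)
    (hl : 1 / 4 ≤ l) (hβ' : |β'| ≤ m) (h1 : |l - l'| ≤ N) (h2 : |l * β - l' * β'| ≤ N)
    (ha : (a : ℝ) ≤ T * β) (ha1 : T * β < a + 1) (hb : (a' : ℝ) ≤ T * β')
    (hb1 : T * β' < a' + 1) : |(a : ℝ) - a'| ≤ 4 * (1 + m) * (1 + T * N) := by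
  have h3 : |(l - l') * β'| ≤ N * m := by
    rw [abs_mul]
    exact mul_le_mul h1 hβ' (abs_nonneg _) hN
  have h4 : |l * (β - β')| ≤ (1 + m) * N := by
    have e : l * (β - β') = (l * β - l' * β') - (l - l') * β' := by ring
    rw [e]
    calc |(l * β - l' * β') - (l - l') * β'| ≤ |l * β - l' * β'| + |(l - l') * β'| := abs_sub _ _
      _ ≤ N + N * m := add_le_add h2 h3
      _ = (1 + m) * N := by ring
  rw [abs_mul, abs_of_pos (by linarith : (0 : ℝ) < l)] at h4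
  have h5 : |β - β'| ≤ 4 * (1 + m) * N := by
    have : 1 / 4 * |β - β'| ≤ l * |β - β'| := mul_le_mul_of_nonneg_right hl (abs_nonneg _)
    linarith
  have h6 : |T * (β - β')| ≤ T * (4 * (1 + m) * N) := by
    rw [abs_mul, abs_of_pos (by linarith : (0 : ℝ) < T)]
    exact mul_le_mul_of_nonneg_left h5 (by linarith)
  rw [abs_le] at h6
  have h7 : T * (β - β') = T * β - T * β' := by ring
  rw [h7] at h6
  have h8 : 4 * (1 + m) * (1 + T * N) = 4 * (1 + m) + T * (4 * (1 + m) * N) := by ring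
  rw [h8, abs_le]
  constructor <;> linarith [h6.1, h6.2]

theorem nbh : NbhStmt := by
  intro m hm
  refine ⟨4 * (1 + m), by linarith, ?_⟩
  intro T hT Q P hF s hs
  obtain ⟨l, β, γ, hl, hl1, hβ, hγ, hP, a1, a2, a3, a4⟩ := hF s hs
  have hbd : ∀ (a : ℤ) (b : ℝ), |b| ≤ m → (a : ℝ) ≤ T * b → T * b < a + 1 →
      |(a : ℝ)| ≤ 4 * (1 + m) * T := by
    intro a b hb h1 h2
    have h3 : |T * b| ≤ T * m := by
      rw [abs_mul, abs_of_pos (by linarith : (0 : ℝ) < T)]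
      exact mul_le_mul_of_nonneg_left hb (by linarith)
    rw [abs_le] at h3
    have h4 : 4 * (1 + m) * T = T * m + 3 * (T * m) + 4 * T := by ring
    have h5 : 0 ≤ T * m := mul_nonneg (by linarith) (by linarith)
    rw [h4, abs_le]
    constructor <;> linarith [h3.1, h3.2]
  refine ⟨hbd s.1 β hβ a1 a2, hbd s.2 γ hγ a3 a4, ?_⟩
  intro s' hs'
  obtain ⟨l', β', γ', hl', hl1', hβ', hγ', hP', b1, b2, b3, b4⟩ := hF s' hs'
  have hN : Nm (P s - P s') = max |l - l'| (max |l * β - l' * β'| |l * γ - l' * γ'|) := by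
    rw [hP, hP']
    rfl
  have n1 : |l - l'| ≤ Nm (P s - P s') := by rw [hN]; exact le_max_left _ _
  have n2 : |l * β - l' * β'| ≤ Nm (P s - P s') := by
    rw [hN]; exact (le_max_left _ _).trans (le_max_right _ _)
  have n3 : |l * γ - l' * γ'| ≤ Nm (P s - P s') := by
    rw [hN]; exact (le_max_right _ _).trans (le_max_right _ _)
  have n0 : 0 ≤ Nm (P s - P s') := (abs_nonneg _).trans n1
  exact ⟨coord m T _ l l' β β' s.1 s'.1 hm hT n0 hl hβ' n1 n2 a1 a2 b1 b2,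
    coord m T _ l l' γ γ' s.2 s'.2 hm hT n0 hl hγ' n1 n3 a3 a4 b3 b4⟩

end Pool.Agent.CRT.H76
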